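import Mathlib

/-!
Every completely metrizable space is strongly Telgársky pseudocomplete.
-/

set_option autoImplicit false

open Set Filter Topology TopologicalSpace

namespace Pool.Agent.Results.MP_e752eb_gt.CompletelyMetrizable

universe u

/-- A space is strongly Telgársky pseudocomplete if it has a base `ℬ` of nonempty open sets such
that every nested sequence of members of `ℬ` has nonempty intersection. -/
def StronglyTelgarskyPseudocomplete (X : Type u) [TopologicalSpace X] : Prop :=
  ∃ ℬ : Set (Set X), IsTopologicalBasis ℬ ∧ (∀ B ∈ ℬ, B.Nonempty) ∧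
    ∀ B : ℕ → Set X, (∀ n, B n ∈ ℬ) → (∀ n, closure (B (n + 1)) ⊆ interior (B n)) →
      (⋂ n, B n).Nonempty

/-- maximal `r`-separated sets -/
lemma exists_net (X : Type u) [MetricSpace X] (r : ℝ) :
    ∃ S : Set X, (∀ x ∈ S, ∀ y ∈ S, dist x y < r → x = y) ∧ ∀ x, ∃ s ∈ S, s = x ∨ dist x s < r := by
  obtain ⟨S, hS⟩ := zorn_subset {S : Set X | ∀ x ∈ S, ∀ y ∈ S, dist x y < r → x = y} (by
    intro c hc hchain
    refine ⟨⋃₀ c, ?_, fun s hs => subset_sUnion_of_mem hs⟩
    rintro x ⟨s, hs, hxs⟩ y ⟨t, ht, hyt⟩ hxy
    rcases hchain.total hs ht with h | h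
    · exact hc ht x (h hxs) y hyt hxy
    · exact hc hs x hxs y (h hyt) hxy)
  refine ⟨S, hS.prop, fun x => ?_⟩
  by_contra hx
  push Not at hx
  have h1 : insert x S ∈ {S : Set X | ∀ x ∈ S, ∀ y ∈ S, dist x y < r → x = y} := by
    rintro a (rfl | ha) b (rfl | hb) hab
    · rfl
    · exact absurd hab (not_lt.2 (hx b hb).2)
    · rw [dist_comm] at hab
      exact absurd hab (not_lt.2 (hx a ha).2)
    · exact hS.prop a ha b hb hab
  have h2 := hS.eq_of_subset h1 (subset_insert x S)
  have h3 : x ∈ S := by rw [h2]; exact mem_insert x S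
  exact (hx x h3).1 rfl

/-- **Every completely metrizable space is strongly Telgársky pseudocomplete.** -/
theorem result (X : Type u) [TopologicalSpace X] [IsCompletelyMetrizableSpace X] :
    StronglyTelgarskyPseudocomplete X := by
  let _ := upgradeIsCompletelyMetrizable X
  choose S hS hS' using fun n : ℕ => exists_net X ((1 / 2 : ℝ) ^ n)
  have hpos : ∀ n : ℕ, (0 : ℝ) < (1 / 2) ^ n := fun n => by positivity
  have hS'' : ∀ n x, ∃ s ∈ S n, dist x s < (1 / 2 : ℝ) ^ n := by
    intro n x
    obtain ⟨s, hs, h⟩ := hS' n x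
    rcases h with rfl | h
    · exact ⟨s, hs, by simp⟩
    · exact ⟨s, hs, h⟩
  refine ⟨{B | ∃ n : ℕ, ∃ s ∈ S n, B = Metric.ball s ((1 / 2 : ℝ) ^ n)}, ?_, ?_, ?_⟩
  · refine isTopologicalBasis_of_isOpen_of_nhds ?_ ?_
    · rintro _ ⟨n, s, _, rfl⟩
      exact Metric.isOpen_ball
    · intro x U hx hU
      obtain ⟨ε, hε, hεU⟩ := Metric.isOpen_iff.1 hU x hx
      obtain ⟨n, hn⟩ := exists_pow_lt_of_lt_one (half_pos hε) (by norm_num : (1 / 2 : ℝ) < 1)
      obtain ⟨s, hs, hxs⟩ := hS'' n x
      refine ⟨_, ⟨n, s, hs, rfl⟩, hxs, ?_⟩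
      intro y hy
      apply hεU
      rw [Metric.mem_ball] at hy ⊢
      calc dist y x ≤ dist y s + dist s x := dist_triangle _ _ _
        _ = dist y s + dist x s := by rw [dist_comm s x]
        _ < ε := by linarith
  · rintro _ ⟨n, s, _, rfl⟩
    exact ⟨s, Metric.mem_ball_self (hpos n)⟩
  · intro B hB hnest
    choose n s hs hBs using hB
    have hanti : Antitone B := antitone_nat_of_succ_le fun k =>
      subset_closure.trans ((hnest k).trans interior_subset)
    by_cases hn : Tendsto n atTop atTop
    · -- the diameters tend to zero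
      have hd : Tendsto (fun k => (1 / 2 : ℝ) ^ n k) atTop (𝓝 0) :=
        (tendsto_pow_atTop_nhds_zero_of_lt_one (by norm_num) (by norm_num)).comp hn
      have hmem : ∀ k l, k ≤ l → s l ∈ B k := by
        intro k l hkl
        apply hanti hkl
        rw [hBs l]
        exact Metric.mem_ball_self (hpos _)
      have hc : CauchySeq s := by
        rw [Metric.cauchySeq_iff']
        intro ε hε
        obtain ⟨N, hN⟩ := ((tendsto_order.1 hd).2 ε hε).exists
        refine ⟨N, fun k hk => ?_⟩
        have := hmem N k hk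
        rw [hBs N, Metric.mem_ball] at this
        exact this.trans hN
      obtain ⟨x, hx⟩ := cauchySeq_tendsto_of_complete hc
      refine ⟨x, mem_iInter.2 fun k => ?_⟩
      have h1 : x ∈ closure (B (k + 1)) := by
        refine mem_closure_of_tendsto hx ?_
        filter_upwards [eventually_ge_atTop (k + 1)] with l hl
        exact hmem _ _ hl
      exact interior_subset (hnest k h1)
    · -- some radius occurs infinitely often
      rw [tendsto_atTop] at hn
      push Not at hn
      obtain ⟨N, hN'⟩ := hn
      obtain ⟨m, hm⟩ : ∃ m, ∃ᶠ k in atTop, n k = m := by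
        by_contra h
        push Not at h
        apply hN'
        have h1 : ∀ᶠ k in atTop, ∀ m ∈ Finset.range N, n k ≠ m := by
          rw [Finset.eventually_all]
          intro m _
          exact h m
        filter_upwards [h1] with k hk hlt
        exact hk _ (Finset.mem_range.2 hlt) rfl
      obtain ⟨k, hk⟩ := hm.exists
      have hconst : ∀ l, k ≤ l → B k ⊆ B l := by
        intro l hkl
        obtain ⟨j, hj, hjm⟩ := (frequently_atTop.1 hm) l
        have h1 : s j ∈ B k := by
          apply hanti (hkl.trans hj)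
          rw [hBs j]
          exact Metric.mem_ball_self (hpos _)
        have h2 : s j = s k := by
          apply hS m (s j) (hjm ▸ hs j) (s k) (hk ▸ hs k)
          rw [hBs k, Metric.mem_ball, hk] at h1
          exact h1
        have h3 : B k = B j := by rw [hBs k, hBs j, h2, hk, hjm]
        rw [h3]
        exact hanti hj
      refine ⟨s k, mem_iInter.2 fun l => ?_⟩
      have h1 : s k ∈ B k := by
        rw [hBs k]
        exact Metric.mem_ball_self (hpos _)
      rcases le_total k l with h | h
      · exact hconst l h h1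
      · exact hanti h h1

end Pool.Agent.Results.MP_e752eb_gt.CompletelyMetrizable
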